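import Pool.Agent.J6H54.CG.Stm

/-!
# Project CG (helper54, MP_a1853d_al), module CG-08 (helper27): the cut lemma
-/

set_option autoImplicit false

namespace Pool.Agent.J6H27.CG08

open Finset Pool.Agent.J6H54.CG

variable {k : ℕ} {T : Finset Pt}

theorem vis_cons (j : ℤ) (R : ℕ) (s : ℤ) (a : Pt) (w : List Pt) :
    vis j R s (a :: w) = vis j R (s + a.2) w + (if (s - j).natAbs ≤ R then 1 else 0) := by
  rw [vis, vis, card_filter, card_filter, List.length_cons, sum_range_succ' _ (w.length + 1)]
  simp only [List.take_succ_cons, List.take_zero, ht_cons, ht_nil, add_zero, add_assoc]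

theorem len_letter {a : Pt} (ha : a ∈ T) : len k T a ≤ 1 := by
  refine len_le' (w := [a]) ?_ (val_singleton a)
  intro s hs
  rw [List.mem_singleton] at hs
  rwa [hs]

theorem step {R : ℕ} (hT : Gen k T) (hB : Bd k T R) {a : Pt} (ha : a ∈ T) (m : ℤ) :
    len k T (a.1, m) ≤ 1 + R * (m - a.2).natAbs := by
  have h1 := len_add hT (x := a.1) (y := 0) (m := a.2) (n := m - a.2) (hT.kad a ha) ka_zero
  rw [mul_zero, add_zero, add_sub_cancel] at h1
  have h2 : len k T (a.1, a.2) ≤ 1 := len_letter ha
  have h3 := len_vert hT hB (m - a.2)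
  omega

theorem comp (hT : Gen k T) {x Y : ℚ} (hx : KA k x) (hY : KA k Y) (p q e : ℤ) :
    len k T (x + (k : ℚ) ^ (-p) * Y, e - p) ≤
      len k T (x, q - p) + len k T ((k : ℚ) ^ (-q) * Y, e - q) := by
  have h1 := len_add hT (x := x) (y := (k : ℚ) ^ (-q) * Y) (m := q - p) (n := e - q) hx
    (ka_shift hT.two_le hY _)
  have h2 : (k : ℚ) ^ (q - p) * ((k : ℚ) ^ (-q) * Y) = (k : ℚ) ^ (-p) * Y := by
    rw [← mul_assoc, ← zpow_add₀ (kne hT.two_le)]
    congr 2
    ring
  have h3 : q - p + (e - q) = e - p := by ring
  rwa [h2, h3] at h1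

theorem comp0 {R : ℕ} (hT : Gen k T) (hB : Bd k T R) {Y : ℚ} (hY : KA k Y) (p q e : ℤ) :
    len k T ((k : ℚ) ^ (-p) * Y, e - p) ≤
      R * (q - p).natAbs + len k T ((k : ℚ) ^ (-q) * Y, e - q) := by
  have h1 := comp hT (x := 0) (Y := Y) ka_zero hY p q e
  rw [zero_add] at h1
  have h2 := len_vert hT hB (q - p)
  omega

theorem cancel (hT : Gen k T) (s : ℤ) (x Y : ℚ) :
    (k : ℚ) ^ (-s) * ((k : ℚ) ^ s * x + Y) = x + (k : ℚ) ^ (-s) * Y := by
  rw [mul_add, ← mul_assoc, ← zpow_add₀ (kne hT.two_le)]
  simp

theorem m08 : S_cut := by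
  intro k T R hT hB c s w
  induction w generalizing s with
  | nil =>
    intro _
    refine ⟨?_, ?_, ?_, ?_⟩
    · simp [lowX, highX]
    · simpa [lowX] using (ka_zero (k := k))
    · exact ⟨0, by simp [highX]⟩
    · simp [lowX, highX, len_zero]
  | cons a w ih =>
    intro hw
    have ha : a ∈ T := hw a (by simp)
    have hw' : Wd T w := fun t ht => hw t (by simp [ht])
    obtain ⟨h1, h2, h3, h4⟩ := ih (s + a.2) hw'
    have hk := hT.two_le
    have hH : KA k (highX k c (s + a.2) w) := ka_of_kad hk h3
    have hka : KA k a.1 := hT.kad a ha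
    have hR := hB.ht_le a ha
    have hval : (k : ℚ) ^ s * (val k (a :: w)).1 = (k : ℚ) ^ s * a.1 + (k : ℚ) ^ (s + a.2) * (val k w).1 := by
      rw [val_cons, mul_fst, mul_add, ← mul_assoc, ← zpow_add₀ (kne hk)]
    have hf : s + ht (a :: w) = s + a.2 + ht w := by rw [ht_cons]; ring
    set s' : ℤ := s + a.2 with hs'
    set f : ℤ := s' + ht w with hf'
    by_cases hsc : s < c
    · have hl : lowX k c s (a :: w) = (k : ℚ) ^ s * a.1 + lowX k c s' w := by
        rw [lowX, if_pos hsc]
      have hh : highX k c s (a :: w) = highX k c s' w := by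
        rw [highX, if_pos hsc, zero_add]
      rw [hl, hh, hval, hf]
      refine ⟨?_, ka_add hk (ka_shift hk hka _) h2, h3, ?_⟩
      · rw [← h1]
        ring
      · rw [min_eq_left hsc.le, max_eq_right hsc.le, cancel hT]
        have e1 := comp hT hka h2 s (min s' c) (min f c)
        have e2 := step hT hB ha (min s' c - s)
        have e3 := comp0 hT hB hH c (max s' c) (max f c)
        rw [vis_cons, List.length_cons, ← hs']
        rcases le_or_gt s' c with h5 | h5
        · have e4 : (min s' c - s - a.2).natAbs = 0 := by
            rw [min_eq_left h5]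
            omega
          have e5 : (max s' c - c).natAbs = 0 := by
            rw [max_eq_right h5]
            omega
          rw [e4] at e2
          rw [e5] at e3
          have e6 : 2 * R * R * vis c R s' w ≤ 2 * R * R * (vis c R s' w +
            if (s - c).natAbs ≤ R then 1 else 0) := Nat.mul_le_mul_left _ (Nat.le_add_right _ _)
          omega
        · have e4 : (min s' c - s - a.2).natAbs ≤ R := by
            rw [min_eq_right h5.le]
            omega
          have e5 : (max s' c - c).natAbs ≤ R := by
            rw [max_eq_left h5.le]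
            omega
          have e6 : (s - c).natAbs ≤ R := by omega
          rw [if_pos e6]
          have e7 := Nat.mul_le_mul_left R e4
          have e8 := Nat.mul_le_mul_left R e5
          have e9 : 2 * R * R * (vis c R s' w + 1) = 2 * R * R * vis c R s' w + R * R + R * R := by ring
          rw [e9]
          omega
    · have hsc' : c ≤ s := not_lt.1 hsc
      have hl : lowX k c s (a :: w) = lowX k c s' w := by
        rw [lowX, if_neg hsc, zero_add]
      have hh : highX k c s (a :: w) = (k : ℚ) ^ s * a.1 + highX k c s' w := by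
        rw [highX, if_neg hsc]
      rw [hl, hh, hval, hf]
      refine ⟨?_, h2, ?_, ?_⟩
      · rw [← h1]
        ring
      · exact kad_add (kad_mono hk (by omega) (kad_shift hk (hB.kad a ha) s)) h3
      · rw [min_eq_right hsc', max_eq_left hsc', cancel hT]
        have e1 := comp hT hka hH s (max s' c) (max f c)
        have e2 := step hT hB ha (max s' c - s)
        have e3 := comp0 hT hB h2 c (min s' c) (min f c)
        rw [vis_cons, List.length_cons, ← hs']
        rcases le_or_gt c s' with h5 | h5
        · have e4 : (max s' c - s - a.2).natAbs = 0 := by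
            rw [max_eq_left h5]
            omega
          have e5 : (min s' c - c).natAbs = 0 := by
            rw [min_eq_right h5]
            omega
          rw [e4] at e2
          rw [e5] at e3
          have e6 : 2 * R * R * vis c R s' w ≤ 2 * R * R * (vis c R s' w +
            if (s - c).natAbs ≤ R then 1 else 0) := Nat.mul_le_mul_left _ (Nat.le_add_right _ _)
          omega
        · have e4 : (max s' c - s - a.2).natAbs ≤ R := by
            rw [max_eq_right h5.le]
            omega
          have e5 : (min s' c - c).natAbs ≤ R := by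
            rw [min_eq_left h5.le]
            omega
          have e6 : (s - c).natAbs ≤ R := by omega
          rw [if_pos e6]
          have e7 := Nat.mul_le_mul_left R e4
          have e8 := Nat.mul_le_mul_left R e5
          have e9 : 2 * R * R * (vis c R s' w + 1) = 2 * R * R * vis c R s' w + R * R + R * R := by ring
          rw [e9]
          omega

end Pool.Agent.J6H27.CG08
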